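import Pool.Agent.H42.Sph.Red

/-!
# Minimal spherical simplices containing a cap
-/

set_option autoImplicit false

namespace Pool.Agent.H42.Sph

open MeasureTheory Matrix Finset Filter Topology Set ProbabilityTheory
open Pool.Agent.H604R2.SW
open Pool.Agent.H604R2.SW.SphAux
open scoped BigOperators ENNReal

theorem cone_measurable {N : ℕ} (m : Fin N → EE N) : MeasurableSet (cone m) := by
  have : cone m = ⋂ i, {z | 0 ≤ inner ℝ (m i) z} := by
    ext z
    simp only [cone, Set.mem_ofPred_eq, Set.mem_iInter]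
  rw [this]
  refine MeasurableSet.iInter (fun i => ?_)
  exact (isClosed_le continuous_const (by fun_prop)).measurableSet

theorem cone_smul {N : ℕ} (m : Fin N → EE N) (r : ℝ) (z : EE N) (hr : 0 < r) :
    r • z ∈ cone m ↔ z ∈ cone m := by
  simp only [cone, Set.mem_ofPred_eq]
  apply forall_congr'
  intro i
  rw [inner_smul_right]
  exact mul_nonneg_iff_of_pos_left hr

/-- orthant probabilities as Gaussian measures of cones -/
theorem orth_gram {N : ℕ} (v : Fin N → EE N) (hv : (gram ℝ v).PosDef) :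
    orth (gram ℝ v) = ((stdGaussian (EE N)) (cone v)).toReal := by
  have hlaw : St_law := law
  have h4 := hlaw (fun i => - v i) (gram ℝ v) hv (by
    intro i j
    rw [inner_neg_neg, gram_apply])
  rw [h4]
  have e : {z : EE N | ∀ i, inner ℝ (- v i) z ≤ 0} = cone v := by
    ext z
    simp only [cone, Set.mem_ofPred_eq]
    apply forall_congr'
    intro i
    rw [inner_neg_left]
    constructor <;> intro h <;> linarith
  rw [e]

/-- the circumscribed case, with normals, for Gaussian measures -/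
theorem gauss_le {d' : ℕ} {r : ℝ} (hr0 : 0 < r) (hr1 : r < Real.pi / 2)
    (c : EE (d' + 2)) (hc : ‖c‖ = 1) (n m : Fin (d' + 2) → EE (d' + 2))
    (hn1 : ∀ i, ‖n i‖ = 1) (hm1 : ∀ i, ‖m i‖ = 1)
    (hn : ∀ i, inner ℝ (n i) c = Real.sin r) (hm : ∀ i, inner ℝ (m i) c = Real.sin r)
    (hnli : LinearIndependent ℝ n) (hmli : LinearIndependent ℝ m)
    (hreg : ∀ i j k l, i ≠ j → k ≠ l → inner ℝ (m i) (m j) = inner ℝ (m k) (m l)) :
    stdGaussian (EE (d' + 2)) (cone m) ≤ stdGaussian (EE (d' + 2)) (cone n) := by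
  have hs : 0 < Real.sin r := Real.sin_pos_of_pos_of_lt_pi hr0 (by linarith [Real.pi_pos])
  have hcr : 0 < Real.cos r := Real.cos_pos_of_mem_Ioo ⟨by linarith [Real.pi_pos], hr1⟩
  have hGn := gram_eq hcr n hc hn
  have hGm := gram_reg hs hcr m c hc hm1 hm hmli hreg
  have hPn : (gram ℝ n).PosDef := posDef_gram_of_linearIndependent hnli
  have hPm : (gram ℝ m).PosDef := posDef_gram_of_linearIndependent hmli
  have hend := f_end d' (Real.sin r ^ 2) (Real.cos r ^ 2) (gram ℝ fun i => xx r c (n i))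
    (by positivity) (by positivity) (corr_xx hcr n hc hn1 hn) (by
      have := hPn
      rw [← hGn] at this
      exact this)
  have hGn' : Real.cos r ^ 2 • (gram ℝ fun i => xx r c (n i)) +
      Matrix.of (fun _ _ => Real.sin r ^ 2) = gram ℝ n := hGn
  rw [hGn', hGm, orth_gram n hPn, orth_gram m hPm] at hend
  exact (ENNReal.toReal_le_toReal (measure_ne_top _ _) (measure_ne_top _ _)).1 hend

/-- **Main theorem**, in every dimension `d ≥ 1` -/
theorem main (d : ℕ) (hd : 1 ≤ d) (c : EE (d + 1)) (r : ℝ) (hc : ‖c‖ = 1) (hr : 0 < r)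
    (B : Set (EE (d + 1)))
    (hBdef : B = {x : EE (d + 1) | ‖x‖ = 1 ∧ InnerProductGeometry.angle x c ≤ r})
    (u w : Fin (d + 1) → EE (d + 1)) (hu : LinearIndependent ℝ u) (hw : LinearIndependent ℝ w)
    (hu1 : ∀ i, ‖u i‖ = 1)
    (hreg : ∀ i j k l : Fin (d + 1), i ≠ j → k ≠ l → dist (u i) (u j) = dist (u k) (u l))
    (hBu : B ⊆ {x : EE (d + 1) | ‖x‖ = 1 ∧
          ∃ t : Fin (d + 1) → ℝ, (∀ j, 0 ≤ t j) ∧ x = ∑ j, t j • u j})
    (htouch : ∀ i : Fin (d + 1), ∃ x ∈ B, ∃ t : Fin (d + 1) → ℝ,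
          (∀ j, 0 ≤ t j) ∧ t i = 0 ∧ x = ∑ j, t j • u j)
    (hBw : B ⊆ {x : EE (d + 1) | ‖x‖ = 1 ∧
          ∃ t : Fin (d + 1) → ℝ, (∀ j, 0 ≤ t j) ∧ x = ∑ j, t j • w j}) :
    (volume : Measure (EE (d + 1))).toSphere
        ((Subtype.val : Metric.sphere (0 : EE (d + 1)) 1 → EE (d + 1)) ⁻¹'
          {x : EE (d + 1) | ‖x‖ = 1 ∧
            ∃ t : Fin (d + 1) → ℝ, (∀ j, 0 ≤ t j) ∧ x = ∑ j, t j • u j})
      ≤
    (volume : Measure (EE (d + 1))).toSphere
        ((Subtype.val : Metric.sphere (0 : EE (d + 1)) 1 → EE (d + 1)) ⁻¹'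
          {x : EE (d + 1) | ‖x‖ = 1 ∧
            ∃ t : Fin (d + 1) → ℝ, (∀ j, 0 ≤ t j) ∧ x = ∑ j, t j • w j}) := by
  obtain ⟨d', rfl⟩ : ∃ d', d = d' + 1 := ⟨d - 1, by omega⟩
  obtain ⟨n, hn1, hnli, hn2⟩ := exists_dual u hu
  obtain ⟨m, hm1, hmli, hm2⟩ := exists_dual w hw
  have hset : ∀ (v ν : Fin (d' + 1 + 1) → EE (d' + 1 + 1))
      (_ : ∀ i j, inner ℝ (ν i) (v j) = if i = j then (1 : ℝ) else 0)
      (_ : ∀ x : EE (d' + 1 + 1), x = ∑ j, (inner ℝ (ν j) x : ℝ) • v j),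
      {x : EE (d' + 1 + 1) | ‖x‖ = 1 ∧
            ∃ t : Fin (d' + 1 + 1) → ℝ, (∀ j, 0 ≤ t j) ∧ x = ∑ j, t j • v j} =
        {x : EE (d' + 1 + 1) | ‖x‖ = 1 ∧ x ∈ cone ν} := by
    intro v ν h1 h2
    ext x
    simp only [Set.mem_ofPred_eq]
    rw [hull_eq_cone v ν h1 h2 x]
  rw [hset u n hn1 hn2] at hBu ⊢
  rw [hset w m hm1 hm2] at hBw ⊢
  rw [toSphere_cone (d' + 1) (cone n) (cone_smul n) (cone_measurable n),
    toSphere_cone (d' + 1) (cone m) (cone_smul m) (cone_measurable m),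
    vol_cone (d' + 1) (cone n) (cone_measurable n) (cone_smul n),
    vol_cone (d' + 1) (cone m) (cone_measurable m) (cone_smul m)]
  -- the ball
  have hBn : ∀ x : EE (d' + 1 + 1), ‖x‖ = 1 → InnerProductGeometry.angle x c ≤ r →
      x ∈ cone n := fun x h1 h2 => (hBu (by rw [hBdef]; exact ⟨h1, h2⟩)).2
  have hBm : ∀ x : EE (d' + 1 + 1), ‖x‖ = 1 → InnerProductGeometry.angle x c ≤ r →
      x ∈ cone m := fun x h1 h2 => (hBw (by rw [hBdef]; exact ⟨h1, h2⟩)).2
  have hr2 : r < Real.pi / 2 := radius_lt (by omega) c r n hnli hBn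
  have hs : 0 < Real.sin r := Real.sin_pos_of_pos_of_lt_pi hr (by linarith [Real.pi_pos])
  -- normals of the regular simplex
  have hnc : ∀ i, inner ℝ (n i) c = Real.sin r * ‖n i‖ := by
    intro i
    apply le_antisymm
    · obtain ⟨x, hxB, t, ht0, hti, hx⟩ := htouch i
      rw [hBdef] at hxB
      apply inner_le c hc r hr hr2 (n i) x hxB.1 hxB.2
      rw [hx, inner_sum]
      simp only [inner_smul_right, hn1]
      simp [hti]
    · exact inner_ge c hc r hr hr2 (n i) fun x h1 h2 => hBn x h1 h2 i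
  obtain ⟨a1, a2, a3, a4⟩ := normalise c (Real.sin r) n hnli hnc
  -- the other simplex
  obtain ⟨m', b1, b2, b3, b4⟩ := tilt_all (by omega) c (Real.sin r) hs m hmli
    (fun i => inner_ge c hc r hr hr2 (m i) fun x h1 h2 => hBm x h1 h2 i) Finset.univ
  obtain ⟨c1, c2, c3, c4⟩ := normalise c (Real.sin r) m' b1 (fun i => b3 i (Finset.mem_univ i))
  have key := gauss_le hr hr2 c hc _ _ c2 a2 c3 a3 c1 a1
    (dual_regular u n hu hu1 hn1 hreg)
  rw [a4, c4] at key
  exact mul_le_mul' le_rfl (mul_le_mul' (key.trans (measure_mono b4)) le_rfl)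

end Pool.Agent.H42.Sph
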