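import Pool.Agent.H42.Sph.Vol

/-!
# Simplicial cones that contain a circular cone: duality and reduction to the circumscribed case
-/

set_option autoImplicit false

namespace Pool.Agent.H42.Sph

open MeasureTheory Finset Filter Topology Set
open scoped BigOperators ENNReal

/-- the cone with given normals -/
def cone {N : ℕ} (m : Fin N → EE N) : Set (EE N) := {x | ∀ i, 0 ≤ inner ℝ (m i) x}

/-- dual vectors -/
theorem exists_dual {N : ℕ} (w : Fin N → EE N) (hw : LinearIndependent ℝ w) :
    ∃ n : Fin N → EE N, (∀ i j, inner ℝ (n i) (w j) = if i = j then (1 : ℝ) else 0) ∧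
      LinearIndependent ℝ n ∧ (∀ x : EE N, x = ∑ j, (inner ℝ (n j) x : ℝ) • w j) := by
  let b := basisOfLinearIndependentOfCardEqFinrank' w hw (by simp)
  have hb : ∀ i, b i = w i := fun i => by
    simp [b]
  let n : Fin N → EE N := fun i =>
    (InnerProductSpace.toDual ℝ (EE N)).symm (LinearMap.toContinuousLinearMap (b.coord i))
  have hn : ∀ i x, inner ℝ (n i) x = b.coord i x := by
    intro i x
    simp [n]
  have hnw : ∀ i j, inner ℝ (n i) (w j) = if i = j then (1 : ℝ) else 0 := by
    intro i j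
    rw [hn, ← hb j, Module.Basis.coord_apply, Module.Basis.repr_self, Finsupp.single_apply]
    by_cases h : i = j
    · subst h; simp
    · rw [if_neg h, if_neg (fun h' => h h'.symm)]
  refine ⟨n, hnw, ?_, ?_⟩
  · rw [Fintype.linearIndependent_iff]
    intro g hg j
    have h1 : inner ℝ (∑ i, g i • n i) (w j) = 0 := by rw [hg, inner_zero_left]
    rw [sum_inner] at h1
    simp only [inner_smul_left, conj_trivial, hnw] at h1
    simpa using h1
  · intro x
    have h1 := b.sum_repr x
    conv_lhs => rw [← h1]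
    refine Finset.sum_congr rfl fun j _ => ?_
    rw [hn, Module.Basis.coord_apply, hb]

theorem hull_eq_cone {N : ℕ} (w n : Fin N → EE N)
    (h1 : ∀ i j, inner ℝ (n i) (w j) = if i = j then (1 : ℝ) else 0)
    (h2 : ∀ x : EE N, x = ∑ j, (inner ℝ (n j) x : ℝ) • w j) (x : EE N) :
    (∃ t : Fin N → ℝ, (∀ j, 0 ≤ t j) ∧ x = ∑ j, t j • w j) ↔ x ∈ cone n := by
  constructor
  · rintro ⟨t, ht, rfl⟩ i
    rw [inner_sum]
    simp only [inner_smul_right, h1]
    simpa using ht i
  · intro hx
    exact ⟨fun j => inner ℝ (n j) x, hx, h2 x⟩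

theorem span_top {N : ℕ} (m : Fin N → EE N) (hm : LinearIndependent ℝ m) :
    Submodule.span ℝ (Set.range m) = ⊤ := by
  apply hm.span_eq_top_of_card_eq_finrank'
  simp

theorem eq_of_inner {N : ℕ} (m : Fin N → EE N) (hm : LinearIndependent ℝ m) (x y : EE N)
    (h : ∀ i, inner ℝ (m i) x = inner ℝ (m i) y) : x = y := by
  have h1 : ∀ z ∈ Submodule.span ℝ (Set.range m), inner ℝ z (x - y) = (0 : ℝ) := by
    intro z hz
    induction hz using Submodule.span_induction with
    | mem z hz =>
      obtain ⟨i, rfl⟩ := hz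
      rw [inner_sub_right, h i, sub_self]
    | zero => rw [inner_zero_left]
    | add a b _ _ ha hb => rw [inner_add_left, ha, hb, add_zero]
    | smul a b _ hb => rw [inner_smul_left, hb, mul_zero]
  have h2 := h1 (x - y) (by rw [span_top m hm]; trivial)
  rw [inner_self_eq_zero] at h2
  exact sub_eq_zero.1 h2

/-- one normal is tilted until its hyperplane touches the circular cone -/
theorem tilt_step {N : ℕ} (c : EE N) (s : ℝ) (hs : 0 < s) (m : Fin N → EE N)
    (hm : LinearIndependent ℝ m) (h : ∀ i, s * ‖m i‖ ≤ inner ℝ (m i) c) (i j : Fin N)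
    (hij : j ≠ i) :
    ∃ m' : Fin N → EE N, LinearIndependent ℝ m' ∧ (∀ k, k ≠ i → m' k = m k) ∧
      inner ℝ (m' i) c = s * ‖m' i‖ ∧ cone m' ⊆ cone m := by
  have hq : 0 < inner ℝ (m j) c := by
    have h1 : 0 < ‖m j‖ := norm_pos_iff.2 (hm.ne_zero j)
    exact lt_of_lt_of_le (by positivity) (h j)
  have hp : 0 ≤ inner ℝ (m i) c := le_trans (by positivity) (h i)
  set p : ℝ := inner ℝ (m i) c with hpdef
  set q : ℝ := inner ℝ (m j) c with hqdef
  let f : ℝ → ℝ := fun ε => inner ℝ (m i - ε • m j) c - s * ‖m i - ε • m j‖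
  have hfc : Continuous f := by fun_prop
  have hf0 : 0 ≤ f 0 := by
    simp only [f, zero_smul, sub_zero]
    linarith [h i]
  have hf1 : f (p / q) ≤ 0 := by
    simp only [f]
    rw [inner_sub_left, inner_smul_left]
    simp only [conj_trivial]
    rw [← hpdef, ← hqdef, div_mul_cancel₀ _ hq.ne', sub_self, zero_sub]
    have := norm_nonneg (m i - (p / q) • m j)
    nlinarith
  have hpq : 0 ≤ p / q := div_nonneg hp hq.le
  obtain ⟨ε, hε, hfε⟩ := intermediate_value_Icc' hpq hfc.continuousOn ⟨hf1, hf0⟩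
  refine ⟨Function.update m i (m i - ε • m j), ?_, ?_, ?_, ?_⟩
  · have hsp : ∀ k, m k ∈ Submodule.span ℝ
        (Set.range (Function.update m i (m i - ε • m j))) := by
      have h1 : ∀ k, k ≠ i → m k ∈ Submodule.span ℝ
          (Set.range (Function.update m i (m i - ε • m j))) := by
        intro k hk
        apply Submodule.subset_span
        exact ⟨k, by rw [Function.update_of_ne hk]⟩
      intro k
      by_cases hk : k = i
      · subst hk
        have h2 : m k - ε • m j ∈ Submodule.span ℝ
            (Set.range (Function.update m k (m k - ε • m j))) := by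
          apply Submodule.subset_span
          exact ⟨k, by rw [Function.update_self]⟩
        have h3 := Submodule.add_mem _ h2 (Submodule.smul_mem _ ε (h1 j hij))
        rwa [sub_add_cancel] at h3
      · exact h1 k hk
    apply linearIndependent_of_top_le_span_of_card_eq_finrank
    · rw [← span_top m hm, Submodule.span_le]
      rintro _ ⟨k, rfl⟩
      exact hsp k
    · simp
  · intro k hk
    rw [Function.update_of_ne hk]
  · rw [Function.update_self]
    have : inner ℝ (m i - ε • m j) c - s * ‖m i - ε • m j‖ = 0 := hfε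
    linarith
  · intro x hx k
    by_cases hk : k = i
    · subst hk
      have h1 := hx k
      have h2 := hx j
      rw [Function.update_self, inner_sub_left, inner_smul_left] at h1
      rw [Function.update_of_ne hij] at h2
      simp only [conj_trivial] at h1
      have := mul_nonneg hε.1 h2
      linarith
    · have h1 := hx k
      rwa [Function.update_of_ne hk] at h1

theorem tilt_all {N : ℕ} (hN : 2 ≤ N) (c : EE N) (s : ℝ) (hs : 0 < s) (m : Fin N → EE N)
    (hm : LinearIndependent ℝ m) (h : ∀ i, s * ‖m i‖ ≤ inner ℝ (m i) c) (F : Finset (Fin N)) :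
    ∃ m' : Fin N → EE N, LinearIndependent ℝ m' ∧ (∀ i, s * ‖m' i‖ ≤ inner ℝ (m' i) c) ∧
      (∀ i ∈ F, inner ℝ (m' i) c = s * ‖m' i‖) ∧ cone m' ⊆ cone m := by
  have : Nontrivial (Fin N) := Fin.nontrivial_iff_two_le.2 hN
  induction F using Finset.induction_on with
  | empty => exact ⟨m, hm, h, by simp, subset_rfl⟩
  | insert i F hi ih =>
    obtain ⟨m', hm', h', hF, hc'⟩ := ih
    obtain ⟨j, hj⟩ := exists_ne i
    obtain ⟨m2, hm2, h2, h3, h4⟩ := tilt_step c s hs m' hm' h' i j hj
    refine ⟨m2, hm2, ?_, ?_, h4.trans hc'⟩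
    · intro k
      by_cases hk : k = i
      · subst hk; rw [h3]
      · rw [h2 k hk]; exact h' k
    · intro k hk
      by_cases hk' : k = i
      · subst hk'; exact h3
      · rw [h2 k hk']
        exact hF k ((Finset.mem_insert.1 hk).resolve_left hk')

/-- unit normals -/
theorem normalise {N : ℕ} (c : EE N) (s : ℝ) (m : Fin N → EE N)
    (hm : LinearIndependent ℝ m) (h : ∀ i, inner ℝ (m i) c = s * ‖m i‖) :
    LinearIndependent ℝ (fun i => ‖m i‖⁻¹ • m i) ∧ (∀ i, ‖‖m i‖⁻¹ • m i‖ = 1) ∧
      (∀ i, inner ℝ (‖m i‖⁻¹ • m i) c = s) ∧ cone (fun i => ‖m i‖⁻¹ • m i) = cone m := by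
  have hpos : ∀ i, 0 < ‖m i‖ := fun i => norm_pos_iff.2 (hm.ne_zero i)
  refine ⟨?_, ?_, ?_, ?_⟩
  · have := hm.units_smul (fun i => Units.mk0 (‖m i‖⁻¹) (inv_ne_zero (hpos i).ne'))
    exact this
  · intro i
    rw [norm_smul, norm_inv, norm_norm, inv_mul_cancel₀ (hpos i).ne']
  · intro i
    rw [inner_smul_left, h i]
    simp only [conj_trivial]
    field_simp [(hpos i).ne']
  · ext x
    unfold cone
    simp only [Set.mem_ofPred_eq]
    apply forall_congr'
    intro i
    rw [inner_smul_left]
    simp only [conj_trivial]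
    exact mul_nonneg_iff_of_pos_left (inv_pos.2 (hpos i))

/-- a simplicial cone does not contain a cap of radius `π / 2` -/
theorem radius_lt {N : ℕ} (hN : 2 ≤ N) (c : EE N) (r : ℝ) (m : Fin N → EE N)
    (hm : LinearIndependent ℝ m)
    (hB : ∀ x : EE N, ‖x‖ = 1 → InnerProductGeometry.angle x c ≤ r → x ∈ cone m) :
    r < Real.pi / 2 := by
  by_contra hcon
  rw [not_lt] at hcon
  have hfr : 1 < Module.finrank ℝ (EE N) := by simp; omega
  obtain ⟨x, hx1, hx2⟩ : ∃ x : EE N, ‖x‖ = 1 ∧ inner ℝ x c = (0 : ℝ) := by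
    have h1 : (ℝ ∙ c)ᗮ ≠ ⊥ := by
      intro h0
      rw [Submodule.orthogonal_eq_bot_iff] at h0
      have h2 : Module.finrank ℝ (ℝ ∙ c) ≤ 1 :=
        (finrank_span_le_card ({c} : Set (EE N))).trans (by simp)
      rw [h0, finrank_top] at h2
      omega
    obtain ⟨y, hy, hy0⟩ := Submodule.exists_mem_ne_zero_of_ne_bot h1
    have hyp : 0 < ‖y‖ := norm_pos_iff.2 hy0
    refine ⟨‖y‖⁻¹ • y, ?_, ?_⟩
    · rw [norm_smul, norm_inv, norm_norm, inv_mul_cancel₀ hyp.ne']
    · have h3 := (Submodule.mem_orthogonal_singleton_iff_inner_left).1 hy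
      rw [inner_smul_left, h3, mul_zero]
  have h1 : x ∈ cone m := hB x hx1 (by
    rw [InnerProductGeometry.inner_eq_zero_iff_angle_eq_pi_div_two] at hx2
    rw [hx2]; exact hcon)
  have h2 : -x ∈ cone m := hB (-x) (by rw [norm_neg, hx1]) (by
    have hx2' : inner ℝ (-x) c = (0 : ℝ) := by rw [inner_neg_left, hx2, neg_zero]
    rw [InnerProductGeometry.inner_eq_zero_iff_angle_eq_pi_div_two] at hx2'
    rw [hx2']; exact hcon)
  have h3 : x = 0 := by
    apply eq_of_inner m hm
    intro i
    have a1 := h1 i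
    have a2 := h2 i
    rw [inner_neg_right] at a2
    rw [inner_zero_right]
    linarith
  rw [h3, norm_zero] at hx1
  exact zero_ne_one hx1

/-- a half space containing a cap -/
theorem inner_ge {N : ℕ} (c : EE N) (hc : ‖c‖ = 1) (r : ℝ) (hr0 : 0 < r)
    (hr : r < Real.pi / 2) (n : EE N)
    (hB : ∀ x : EE N, ‖x‖ = 1 → InnerProductGeometry.angle x c ≤ r → 0 ≤ inner ℝ n x) :
    Real.sin r * ‖n‖ ≤ inner ℝ n c := by
  have hs : 0 < Real.sin r := Real.sin_pos_of_pos_of_lt_pi hr0 (by linarith [Real.pi_pos])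
  have hcr : 0 < Real.cos r := Real.cos_pos_of_mem_Ioo ⟨by linarith [Real.pi_pos], hr⟩
  have hcc : inner ℝ c c = (1 : ℝ) := by rw [real_inner_self_eq_norm_sq, hc]; norm_num
  have hp : 0 ≤ inner ℝ n c := hB c hc (by
    rw [InnerProductGeometry.angle_self (by intro h; rw [h, norm_zero] at hc; exact zero_ne_one hc)]
    exact hr0.le)
  set p : ℝ := inner ℝ n c with hpdef
  have hnv : ‖n - p • c‖ ^ 2 = ‖n‖ ^ 2 - p ^ 2 := by
    rw [← real_inner_self_eq_norm_sq, ← real_inner_self_eq_norm_sq, inner_sub_left,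
      inner_sub_right, inner_sub_right, inner_smul_left, inner_smul_right, inner_smul_left,
      inner_smul_right, hcc, real_inner_comm n c, ← hpdef]
    simp only [conj_trivial]
    ring
  have key : Real.sin r * ‖n - p • c‖ ≤ p * Real.cos r := by
    by_cases hv : n - p • c = 0
    · rw [hv, norm_zero, mul_zero]
      positivity
    · have hvp : 0 < ‖n - p • c‖ := norm_pos_iff.2 hv
      set v := n - p • c with hvdef
      have hvc : inner ℝ v c = (0 : ℝ) := by
        rw [hvdef, inner_sub_left, inner_smul_left, hcc, ← hpdef]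
        simp
      have hnvin : inner ℝ n v = ‖v‖ ^ 2 := by
        have : n = v + p • c := by rw [hvdef]; abel
        conv_lhs => rw [this]
        rw [inner_add_left, inner_smul_left, real_inner_self_eq_norm_sq, real_inner_comm, hvc]
        simp
      set x := Real.cos r • c - (Real.sin r * ‖v‖⁻¹) • v with hxdef
      have hxc : inner ℝ x c = Real.cos r := by
        rw [hxdef, inner_sub_left, inner_smul_left, inner_smul_left, hcc, hvc]
        simp
      have hxx : ‖x‖ ^ 2 = 1 := by
        rw [← real_inner_self_eq_norm_sq]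
        conv_lhs => rw [hxdef]
        rw [inner_sub_left, inner_sub_right, inner_sub_right, inner_smul_left, inner_smul_right,
          inner_smul_left, inner_smul_right, inner_smul_left, inner_smul_right, inner_smul_left,
          inner_smul_right, hcc, hvc, real_inner_comm, hvc, real_inner_self_eq_norm_sq]
        simp only [conj_trivial]
        have := Real.sin_sq_add_cos_sq r
        field_simp
        linear_combination ‖v‖ * this
      have hx1 : ‖x‖ = 1 := by
        have := norm_nonneg x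
        nlinarith
      have hang : InnerProductGeometry.angle x c = r := by
        unfold InnerProductGeometry.angle
        rw [hxc, hx1, hc, mul_one, div_one, Real.arccos_cos hr0.le (by linarith [Real.pi_pos])]
      have h1 := hB x hx1 hang.le
      rw [hxdef, inner_sub_right, inner_smul_right, inner_smul_right, hnvin, ← hpdef] at h1
      have h2 : Real.sin r * ‖v‖⁻¹ * ‖v‖ ^ 2 = Real.sin r * ‖v‖ := by
        field_simp
      rw [h2] at h1
      linarith
  have h3 : (Real.sin r * ‖n‖) ^ 2 ≤ p ^ 2 := by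
    have h4 : (Real.sin r * ‖n - p • c‖) ^ 2 ≤ (p * Real.cos r) ^ 2 :=
      pow_le_pow_left₀ (by positivity) key 2
    rw [mul_pow, hnv, mul_pow] at h4
    have := Real.sin_sq_add_cos_sq r
    nlinarith
  exact abs_le_of_sq_le_sq' h3 hp |>.2

/-- a half space whose boundary meets a cap -/
theorem inner_le {N : ℕ} (c : EE N) (hc : ‖c‖ = 1) (r : ℝ) (hr0 : 0 < r)
    (hr : r < Real.pi / 2) (n x : EE N) (hx : ‖x‖ = 1)
    (hxr : InnerProductGeometry.angle x c ≤ r) (hnx : inner ℝ n x = (0 : ℝ)) :
    inner ℝ n c ≤ Real.sin r * ‖n‖ := by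
  have hs : 0 < Real.sin r := Real.sin_pos_of_pos_of_lt_pi hr0 (by linarith [Real.pi_pos])
  have hcr : 0 < Real.cos r := Real.cos_pos_of_mem_Ioo ⟨by linarith [Real.pi_pos], hr⟩
  have hxc : Real.cos r ≤ inner ℝ x c := by
    have h1 := InnerProductGeometry.cos_angle_mul_norm_mul_norm x c
    rw [hx, hc, mul_one, mul_one] at h1
    rw [← h1]
    exact Real.cos_le_cos_of_nonneg_of_le_pi (InnerProductGeometry.angle_nonneg _ _)
      (by linarith [Real.pi_pos]) hxr
  set a : ℝ := inner ℝ x c with hadef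
  have hcc : inner ℝ c c = (1 : ℝ) := by rw [real_inner_self_eq_norm_sq, hc]; norm_num
  have hxx : inner ℝ x x = (1 : ℝ) := by rw [real_inner_self_eq_norm_sq, hx]; norm_num
  have hn2 : ‖c - a • x‖ ^ 2 = 1 - a ^ 2 := by
    rw [← real_inner_self_eq_norm_sq, inner_sub_left, inner_sub_right, inner_sub_right,
      inner_smul_left, inner_smul_right, inner_smul_left, inner_smul_right, hcc, hxx,
      real_inner_comm x c, ← hadef]
    simp only [conj_trivial]
    ring
  have hle : ‖c - a • x‖ ≤ Real.sin r := by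
    apply abs_le_of_sq_le_sq' _ hs.le |>.2
    rw [hn2]
    have := Real.sin_sq_add_cos_sq r
    nlinarith
  have h2 : inner ℝ n c = inner ℝ n (c - a • x) := by
    rw [inner_sub_right, inner_smul_right, hnx, mul_zero, sub_zero]
  rw [h2]
  calc inner ℝ n (c - a • x) ≤ ‖n‖ * ‖c - a • x‖ := real_inner_le_norm _ _
    _ ≤ ‖n‖ * Real.sin r := mul_le_mul_of_nonneg_left hle (norm_nonneg _)
    _ = _ := mul_comm _ _

/-- the normals of a regular simplicial cone form a regular configuration -/
theorem dual_regular {N : ℕ} (u n : Fin N → EE N) (hu : LinearIndependent ℝ u)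
    (hu1 : ∀ i, ‖u i‖ = 1) (hn : ∀ i j, inner ℝ (n i) (u j) = if i = j then (1 : ℝ) else 0)
    (hreg : ∀ i j k l, i ≠ j → k ≠ l → dist (u i) (u j) = dist (u k) (u l)) :
    ∀ i j k l, i ≠ j → k ≠ l →
      inner ℝ (‖n i‖⁻¹ • n i) (‖n j‖⁻¹ • n j) = inner ℝ (‖n k‖⁻¹ • n k) (‖n l‖⁻¹ • n l) := by
  intro i j k l hij hkl
  set g : ℝ := inner ℝ (u i) (u j) with hg
  have hself : ∀ a, inner ℝ (u a) (u a) = (1 : ℝ) := fun a => by
    rw [real_inner_self_eq_norm_sq, hu1 a]; norm_num
  have hgall : ∀ a b, a ≠ b → inner ℝ (u a) (u b) = g := by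
    intro a b hab
    have h1 := hreg a b i j hab hij
    rw [dist_eq_norm, dist_eq_norm] at h1
    have h2 : ∀ a b, ‖u a - u b‖ ^ 2 = 2 - 2 * inner ℝ (u a) (u b) := by
      intro a b
      rw [norm_sub_sq_real, hu1 a, hu1 b]; ring
    have h3 := h2 a b
    rw [h1, h2 i j] at h3
    linarith
  have hG : ∀ a b, inner ℝ (u a) (u b) = (if a = b then (1 - g) else 0) + g := by
    intro a b
    by_cases h : a = b
    · subst h; rw [if_pos rfl, hself]; ring
    · rw [if_neg h, hgall a b h]; ring
  have hg1 : 1 - g ≠ 0 := by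
    intro h
    have h2 : u i = u j := by
      rw [← inner_eq_one_iff_of_norm_eq_one (𝕜 := ℝ) (hu1 i) (hu1 j)]
      linarith
    exact hij (hu.injective h2)
  set S : EE N := ∑ a, u a with hS
  have hSu : ∀ b, inner ℝ S (u b) = (1 - g) + N * g := by
    intro b
    rw [hS, sum_inner]
    simp only [hG]
    rw [Finset.sum_add_distrib]
    simp
  set κ : ℝ := (1 - g) + N * g with hκ
  have hSS : inner ℝ S S = N * κ := by
    conv_lhs => rw [hS, inner_sum]
    rw [← hS]
    simp only [hSu]
    simp
  have hκ0 : κ ≠ 0 := by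
    intro h
    rw [h, mul_zero, inner_self_eq_zero] at hSS
    have h1 := (Fintype.linearIndependent_iff.1 hu) (fun _ => 1) (by simpa [hS] using hSS) i
    exact one_ne_zero h1
  have hform : ∀ a, n a = (1 - g)⁻¹ • (u a - (g / κ) • S) := by
    intro a
    apply eq_of_inner u hu
    intro b
    rw [real_inner_comm, hn, inner_smul_right, inner_sub_right, inner_smul_right,
      real_inner_comm S (u b), hSu, real_inner_comm, hG]
    rw [div_mul_cancel₀ _ hκ0]
    by_cases h : a = b
    · subst h
      rw [if_pos rfl, if_pos rfl]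
      field_simp
      ring
    · rw [if_neg h, if_neg h]
      ring
  have hnS : ∀ a, inner ℝ (n a) S = (1 : ℝ) := by
    intro a
    rw [hS, inner_sum]
    simp only [hn]
    simp
  have hnn : ∀ a b, inner ℝ (n a) (n b) = (1 - g)⁻¹ * ((if a = b then (1 : ℝ) else 0) - g / κ) := by
    intro a b
    conv_lhs => rw [hform b]
    rw [inner_smul_right, inner_sub_right, inner_smul_right, hn, hnS]
    ring
  have hnorm : ∀ a b, ‖n a‖ = ‖n b‖ := by
    intro a b
    have h1 : ‖n a‖ ^ 2 = ‖n b‖ ^ 2 := by
      rw [← real_inner_self_eq_norm_sq, ← real_inner_self_eq_norm_sq, hnn, hnn, if_pos rfl,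
        if_pos rfl]
    have h2 := norm_nonneg (n a)
    have h3 := norm_nonneg (n b)
    nlinarith
  rw [inner_smul_left, inner_smul_right, inner_smul_left, inner_smul_right, hnn, hnn,
    if_neg hij, if_neg hkl, hnorm j i, hnorm k i, hnorm l i]

end Pool.Agent.H42.Sph
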