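import Pool.Graph.R_pool_sql_team_seeded_f0cf7b00.H604R2.SW.Final

/-!
# Spherical simplices: Gaussian measure, volume of a cone in the unit ball, and `toSphere`
-/

set_option autoImplicit false

namespace Pool.Agent.H42.Sph

open MeasureTheory Matrix Finset Filter Topology Set ProbabilityTheory
open Pool.Agent.H604R2.SW
open Pool.Agent.Helper843.SphB
open scoped BigOperators ENNReal Pointwise

abbrev EE (N : ℕ) : Type := EuclideanSpace ℝ (Fin N)

/-- the part of the unit ball in a cone has volume proportional to the Gaussian measure -/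
lemma vol_cone (d : ℕ) (W : Set (EE (d + 1))) (hW : MeasurableSet W)
    (hcone : ∀ (r : ℝ) (z : EE (d + 1)), 0 < r → (r • z ∈ W ↔ z ∈ W)) :
    volume (W ∩ Metric.ball (0 : EE (d + 1)) 1) =
      stdGaussian (EE (d + 1)) W * volume (Metric.ball (0 : EE (d + 1)) 1) := by
  have hn : Module.finrank ℝ (EE (d + 1)) = d + 1 := by simp
  obtain ⟨x0, hx0⟩ : ∃ x0 : EE (d + 1), ‖x0‖ = 1 := ⟨EuclideanSpace.single 0 1, by simp⟩
  have h1 := avg_ball hn W hW hcone x0 hx0
  have h2 := hausAux.avg_gauss hn (hausAux.gauss_ne_zero d) W hW hcone x0 hx0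
  rw [h2] at h1
  have h3 : volume (W ∩ Metric.ball (0 : EE (d + 1)) 1) * tot (EE (d + 1)) =
      (stdGaussian (EE (d + 1)) W * volume (Metric.ball (0 : EE (d + 1)) 1)) *
        tot (EE (d + 1)) := by
    rw [← h1]; ring
  exact (ENNReal.mul_left_inj tot_ne_zero tot_ne_top).1 h3

/-- `toSphere` of the trace of a cone on the sphere -/
lemma toSphere_cone (d : ℕ) (W : Set (EE (d + 1)))
    (hcone : ∀ (r : ℝ) (z : EE (d + 1)), 0 < r → (r • z ∈ W ↔ z ∈ W))
    (hW : MeasurableSet W) :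
    (volume : Measure (EE (d + 1))).toSphere
        ((Subtype.val : Metric.sphere (0 : EE (d + 1)) 1 → EE (d + 1)) ⁻¹'
          {x : EE (d + 1) | ‖x‖ = 1 ∧ x ∈ W}) =
      (Module.finrank ℝ (EE (d + 1)) : ℝ≥0∞) *
        volume (W ∩ Metric.ball (0 : EE (d + 1)) 1) := by
  have hmeas : MeasurableSet ((Subtype.val : Metric.sphere (0 : EE (d + 1)) 1 → EE (d + 1)) ⁻¹'
          {x : EE (d + 1) | ‖x‖ = 1 ∧ x ∈ W}) := by
    apply measurable_subtype_coe
    exact ((isClosed_eq continuous_norm continuous_const).measurableSet).inter hW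
  rw [Measure.toSphere_apply' _ hmeas]
  congr 1
  have hset : (Set.Ioo (0 : ℝ) 1 • ((Subtype.val : Metric.sphere (0 : EE (d + 1)) 1 → EE (d + 1)) ''
      ((Subtype.val : Metric.sphere (0 : EE (d + 1)) 1 → EE (d + 1)) ⁻¹'
          {x : EE (d + 1) | ‖x‖ = 1 ∧ x ∈ W}))) =
      (W ∩ Metric.ball (0 : EE (d + 1)) 1) \ {0} := by
    ext z
    simp only [Set.mem_smul, Set.mem_image, Set.mem_preimage, Set.mem_ofPred_eq, Set.mem_sdiff,
      Set.mem_inter_iff, Metric.mem_ball, dist_zero_right, Set.mem_singleton_iff]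
    constructor
    · rintro ⟨r, hr, y, ⟨x, ⟨hx1, hx2⟩, rfl⟩, rfl⟩
      refine ⟨⟨(hcone r _ hr.1).2 hx2, ?_⟩, ?_⟩
      · rw [norm_smul, hx1, mul_one, Real.norm_eq_abs, abs_of_pos hr.1]
        exact hr.2
      · intro h0
        rw [smul_eq_zero] at h0
        rcases h0 with h0 | h0
        · exact hr.1.ne' h0
        · rw [h0, norm_zero] at hx1
          exact zero_ne_one hx1
    · rintro ⟨⟨hzW, hz1⟩, hz0⟩
      have hzp : 0 < ‖z‖ := norm_pos_iff.2 hz0
      have hn1 : ‖(‖z‖⁻¹ • z : EE (d + 1))‖ = 1 := by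
        rw [norm_smul, norm_inv, norm_norm, inv_mul_cancel₀ hzp.ne']
      refine ⟨‖z‖, ⟨hzp, hz1⟩, ‖z‖⁻¹ • z, ⟨⟨‖z‖⁻¹ • z, by simp [hn1]⟩, ⟨hn1, ?_⟩, rfl⟩, ?_⟩
      · exact (hcone _ _ (inv_pos.2 hzp)).2 hzW
      · rw [smul_smul, mul_inv_cancel₀ hzp.ne', one_smul]
  rw [hset]
  exact measure_sdiff_null (measure_singleton _)

end Pool.Agent.H42.Sph
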